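import Mathlib
import Pool.Agent.Helper38.SG.Det

/-! # Sobolev gap, piece KALG: cut-off functions in `K`-finite functions on `G / P` -/

open Filter Topology Set
open scoped RealInnerProductSpace ContDiff

universe u

namespace Pool.Agent.Helper44.SG

open Pool.Agent.Helper38.SG

variable {G 𝔤 : Type u} [Group G] [TopologicalSpace G] [IsTopologicalGroup G] [T2Space G]
  [NormedAddCommGroup 𝔤] [InnerProductSpace ℝ 𝔤] [FiniteDimensional ℝ 𝔤]

/-- pointwise product of a scalar function and a vector valued function, as bilinear map -/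
def pmul (G : Type u) (F : Type*) [AddCommGroup F] [Module ℂ F] :
    (G → ℂ) →ₗ[ℂ] (G → F) →ₗ[ℂ] (G → F) :=
  LinearMap.mk₂ ℂ (fun a f x => a x • f x)
    (fun a a' f => by funext x; simp [add_smul])
    (fun c a f => by funext x; simp [mul_smul])
    (fun a f f' => by funext x; simp [smul_add])
    (fun c a f => by funext x; simp only [Pi.smul_apply]; rw [smul_comm])

/-- left translation, as a linear map -/
def ltL {F : Type*} [AddCommGroup F] [Module ℂ F] (k : G) : (G → F) →ₗ[ℂ] (G → F) where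
  toFun f := lt k f
  map_add' _ _ := rfl
  map_smul' _ _ := rfl

omit [TopologicalSpace G] [IsTopologicalGroup G] [T2Space G] in
theorem lt_pmul {F : Type*} [AddCommGroup F] [Module ℂ F] (k : G) (a : G → ℂ) (f : G → F) :
    lt k (pmul G F a f) = pmul G F (lt k a) (lt k f) := rfl

omit [IsTopologicalGroup G] [T2Space G] [FiniteDimensional ℝ 𝔤] in
theorem KFinite.mul {P : ParData G 𝔤} {F : Type*} [AddCommGroup F] [Module ℂ F] {a : G → ℂ}
    {f : G → F} (ha : KFinite P a) (hf : KFinite P f) : KFinite P (fun x => a x • f x) := by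
  obtain ⟨W, h1, h2, h3⟩ := ha
  obtain ⟨W', h1', h2', h3'⟩ := hf
  refine ⟨Submodule.map₂ (pmul G F) W W', ?_, Submodule.apply_mem_map₂ _ h2 h2', ?_⟩
  · exact Submodule.fg_iff_finiteDimensional _ |>.1
      (Submodule.FG.map₂ _ ((Submodule.fg_iff_finiteDimensional _).2 h1)
        ((Submodule.fg_iff_finiteDimensional _).2 h1'))
  · intro k hk w hw
    have key : Submodule.map₂ (pmul G F) W W' ≤
        (Submodule.map₂ (pmul G F) W W').comap (ltL k) := by
      rw [Submodule.map₂_le]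
      intro m hm n hn
      rw [Submodule.mem_comap]
      change lt k (pmul G F m n) ∈ Submodule.map₂ (pmul G F) W W'
      rw [lt_pmul]
      exact Submodule.apply_mem_map₂ _ (h3 k hk m hm) (h3' k hk n hn)
    exact key hw

omit [IsTopologicalGroup G] [T2Space G] [FiniteDimensional ℝ 𝔤] in
theorem KFinite.const (P : ParData G 𝔤) (c : ℂ) : KFinite P (fun _ : G => c) := by
  refine ⟨Submodule.span ℂ {fun _ : G => (1 : ℂ)}, inferInstance, ?_, ?_⟩
  · rw [Submodule.mem_span_singleton]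
    exact ⟨c, by funext x; simp⟩
  · intro k hk w hw
    rw [Submodule.mem_span_singleton] at hw ⊢
    obtain ⟨d, rfl⟩ := hw
    exact ⟨d, rfl⟩

omit [IsTopologicalGroup G] [T2Space G] [FiniteDimensional ℝ 𝔤] in
theorem KFinite.mul' {P : ParData G 𝔤} {a b : G → ℂ}
    (ha : KFinite P a) (hb : KFinite P b) : KFinite P (fun x => a x * b x) :=
  KFinite.mul ha hb

omit [IsTopologicalGroup G] [T2Space G] [FiniteDimensional ℝ 𝔤] in
theorem KFinite.sum {P : ParData G 𝔤} {ι : Type*} (s : Finset ι) {a : ι → G → ℂ}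
    (ha : ∀ i ∈ s, KFinite P (a i)) : KFinite P (fun x => ∑ i ∈ s, a i x) := by
  classical
  induction s using Finset.induction_on with
  | empty => simpa using KFinite.const P 0
  | insert i s hi ih =>
    have h1 := ih fun j hj => ha j (Finset.mem_insert_of_mem hj)
    have h2 := ha i (Finset.mem_insert_self i s)
    have h3 := h2.add h1
    have h4 : (fun x => ∑ j ∈ insert i s, a j x) = a i + fun x => ∑ j ∈ s, a j x := by
      funext x
      simp [Finset.sum_insert hi]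
    rw [h4]
    exact h3

omit [IsTopologicalGroup G] [T2Space G] [FiniteDimensional ℝ 𝔤] in
theorem KFinite.prod {P : ParData G 𝔤} {ι : Type*} (s : Finset ι) {a : ι → G → ℂ}
    (ha : ∀ i ∈ s, KFinite P (a i)) : KFinite P (fun x => ∏ i ∈ s, a i x) := by
  classical
  induction s using Finset.induction_on with
  | empty => simpa using KFinite.const P 1
  | insert i s hi ih =>
    have h1 := ih fun j hj => ha j (Finset.mem_insert_of_mem hj)
    have h2 := ha i (Finset.mem_insert_self i s)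
    have h3 := KFinite.mul' h2 h1
    have h4 : (fun x => ∏ j ∈ insert i s, a j x) = fun x => a i x * ∏ j ∈ s, a j x := by
      funext x
      simp [Finset.prod_insert hi]
    rw [h4]
    exact h3

omit [IsTopologicalGroup G] [T2Space G] [FiniteDimensional ℝ 𝔤] in
theorem KFinite.pow {P : ParData G 𝔤} {a : G → ℂ}
    (ha : KFinite P a) (n : ℕ) : KFinite P (fun x => a x ^ n) := by
  have := KFinite.prod (Finset.range n) (a := fun _ => a) fun _ _ => ha
  simpa using this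

namespace ParData

variable (P : ParData G 𝔤)

theorem kfinite_Ad (v w : 𝔤) :
    KFinite P (fun x : G => ((⟪v, P.Ad (P.κ x) w⟫ : ℝ) : ℂ)) := by
  classical
  set b := stdOrthonormalBasis ℝ 𝔤 with hb
  set L : 𝔤 → G → ℂ := fun v x => ((⟪v, P.Ad (P.κ x) w⟫ : ℝ) : ℂ) with hL
  have hLmem : ∀ v, L v ∈ Submodule.span ℂ (range fun i => L (b i)) := by
    intro v
    have h1 : L v = ∑ i, ((⟪b i, v⟫ : ℝ) : ℂ) • L (b i) := by
      funext x
      simp only [hL, Finset.sum_apply, Pi.smul_apply, smul_eq_mul]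
      rw [← b.sum_inner_mul_inner v (P.Ad (P.κ x) w)]
      push_cast
      refine Finset.sum_congr rfl fun i _ => ?_
      rw [real_inner_comm]
    rw [h1]
    exact Submodule.sum_mem _ fun i _ => Submodule.smul_mem _ _ (Submodule.subset_span ⟨i, rfl⟩)
  refine ⟨Submodule.span ℂ (range fun i => L (b i)),
    FiniteDimensional.span_of_finite ℂ (finite_range _), hLmem v, ?_⟩
  intro k hk u hu
  have key : Submodule.span ℂ (range fun i => L (b i)) ≤
      (Submodule.span ℂ (range fun i => L (b i))).comap (ltL k) := by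
    rw [Submodule.span_le]
    rintro _ ⟨i, rfl⟩
    change lt k (L (b i)) ∈ Submodule.span ℂ (range fun i => L (b i))
    have h2 : lt k (L (b i)) = L (P.Ad k (b i)) := by
      funext x
      simp only [hL, lt]
      rw [P.κ_mul_left (inv_mem hk), map_mul, Module.End.mul_apply,
        ← P.Ad_isom k hk (b i) (P.Ad k⁻¹ (P.Ad (P.κ x) w)), ← Module.End.mul_apply (P.Ad k),
        ← map_mul, mul_inv_cancel, map_one, Module.End.one_apply]
    rw [h2]
    exact hLmem _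
  exact key hu

/-- a function on `K / M` with values in `[0, 1]`, equal to `1` exactly at the base point -/
noncomputable def Fl (x : G) : ℝ :=
  1 - (4 * (Module.finrank ℝ P.𝔞 : ℝ) + 1)⁻¹ *
    ∑ i, ‖P.Ad (P.κ x) (stdOrthonormalBasis ℝ P.𝔞 i : 𝔤) - (stdOrthonormalBasis ℝ P.𝔞 i : 𝔤)‖ ^ 2

theorem continuous_Fl : Continuous (Fl P) := by
  unfold Fl
  refine continuous_const.sub (continuous_const.mul (continuous_finsetSum _ fun i _ => ?_))
  exact (((P.continuous_Ad _).comp P.continuous_κ).sub continuous_const).norm.pow 2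

omit [IsTopologicalGroup G] [T2Space G] [FiniteDimensional ℝ 𝔤] in
theorem norm_Ad {k : G} (hk : k ∈ P.K) (X : 𝔤) : ‖P.Ad k X‖ = ‖X‖ := by
  have h := P.Ad_isom k hk X X
  rw [real_inner_self_eq_norm_sq, real_inner_self_eq_norm_sq] at h
  exact (sq_eq_sq₀ (norm_nonneg _) (norm_nonneg _)).1 h

theorem Fl_nonneg (x : G) : 0 ≤ Fl P x := by
  unfold Fl
  have h1 : ∑ i, ‖P.Ad (P.κ x) (stdOrthonormalBasis ℝ P.𝔞 i : 𝔤) -
      (stdOrthonormalBasis ℝ P.𝔞 i : 𝔤)‖ ^ 2 ≤ 4 * (Module.finrank ℝ P.𝔞 : ℝ) := by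
    refine (Finset.sum_le_card_nsmul _ _ 4 fun i _ => ?_).trans (le_of_eq ?_)
    · have h2 : ‖(stdOrthonormalBasis ℝ P.𝔞 i : 𝔤)‖ = 1 := by
        rw [← Submodule.coe_norm]
        exact (stdOrthonormalBasis ℝ P.𝔞).orthonormal.1 i
      have h3 := norm_sub_le (P.Ad (P.κ x) (stdOrthonormalBasis ℝ P.𝔞 i : 𝔤))
        (stdOrthonormalBasis ℝ P.𝔞 i : 𝔤)
      rw [norm_Ad P (P.κ_mem x), h2] at h3
      have h4 := norm_nonneg (P.Ad (P.κ x) (stdOrthonormalBasis ℝ P.𝔞 i : 𝔤) -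
        (stdOrthonormalBasis ℝ P.𝔞 i : 𝔤))
      nlinarith
    · simp [mul_comm]
  have h2 : (0 : ℝ) < 4 * (Module.finrank ℝ P.𝔞 : ℝ) + 1 := by positivity
  have h3 : (4 * (Module.finrank ℝ P.𝔞 : ℝ) + 1)⁻¹ *
      ∑ i, ‖P.Ad (P.κ x) (stdOrthonormalBasis ℝ P.𝔞 i : 𝔤) -
      (stdOrthonormalBasis ℝ P.𝔞 i : 𝔤)‖ ^ 2 ≤ 1 := by
    rw [inv_mul_le_iff₀ h2]
    linarith
  linarith

theorem Fl_le_one (x : G) : Fl P x ≤ 1 := by
  unfold Fl
  have h2 : (0 : ℝ) < 4 * (Module.finrank ℝ P.𝔞 : ℝ) + 1 := by positivity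
  have h3 : 0 ≤ (4 * (Module.finrank ℝ P.𝔞 : ℝ) + 1)⁻¹ *
      ∑ i, ‖P.Ad (P.κ x) (stdOrthonormalBasis ℝ P.𝔞 i : 𝔤) -
      (stdOrthonormalBasis ℝ P.𝔞 i : 𝔤)‖ ^ 2 := by positivity
  linarith

theorem Fl_eq_one {k : G} (hk : k ∈ P.K) : Fl P k = 1 ↔ k ∈ P.M := by
  have h2 : (0 : ℝ) < 4 * (Module.finrank ℝ P.𝔞 : ℝ) + 1 := by positivity
  have h0 : Fl P k = 1 ↔ ∀ i, P.Ad k (stdOrthonormalBasis ℝ P.𝔞 i : 𝔤) =
      (stdOrthonormalBasis ℝ P.𝔞 i : 𝔤) := by
    unfold Fl
    rw [P.κ_of_mem hk, sub_eq_self, mul_eq_zero, or_iff_right (inv_ne_zero h2.ne'),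
      Finset.sum_eq_zero_iff_of_nonneg fun i _ => by positivity]
    constructor
    · intro h i
      have := h i (Finset.mem_univ i)
      rwa [sq_eq_zero_iff, norm_eq_zero, sub_eq_zero] at this
    · intro h i _
      rw [h i, sub_self, norm_zero]
      norm_num
  rw [h0]
  constructor
  · intro h
    refine ⟨hk, fun H hH => ?_⟩
    have h3 := (stdOrthonormalBasis ℝ P.𝔞).sum_repr (⟨H, hH⟩ : P.𝔞)
    have h4 : H = ∑ i, (stdOrthonormalBasis ℝ P.𝔞).repr ⟨H, hH⟩ i •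
        (stdOrthonormalBasis ℝ P.𝔞 i : 𝔤) := by
      have := congrArg (Subtype.val) h3
      simpa using this.symm
    conv_lhs => rw [h4]
    conv_rhs => rw [h4]
    rw [map_sum]
    exact Finset.sum_congr rfl fun i _ => by rw [map_smul, h i]
  · intro h i
    exact h.2 _ (stdOrthonormalBasis ℝ P.𝔞 i).2

theorem kfinite_norm_sq (b : 𝔤) :
    KFinite P (fun x : G => ((‖P.Ad (P.κ x) b - b‖ ^ 2 : ℝ) : ℂ)) := by
  have h1 : (fun x : G => ((‖P.Ad (P.κ x) b - b‖ ^ 2 : ℝ) : ℂ)) =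
      (fun _ : G => ((2 * ‖b‖ ^ 2 : ℝ) : ℂ)) + ((-2 : ℂ) •
        fun x : G => ((⟪b, P.Ad (P.κ x) b⟫ : ℝ) : ℂ)) := by
    funext x
    simp only [Pi.add_apply, Pi.smul_apply, smul_eq_mul]
    rw [norm_sub_sq_real, norm_Ad P (P.κ_mem x), real_inner_comm]
    push_cast
    ring
  rw [h1]
  exact (KFinite.const P _).add ((kfinite_Ad P b b).smul _)

theorem kfinite_Fl : KFinite P (fun x : G => ((Fl P x : ℝ) : ℂ)) := by
  have h1 : (fun x : G => ((Fl P x : ℝ) : ℂ)) = (fun _ : G => (1 : ℂ)) +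
      ((-(((4 * (Module.finrank ℝ P.𝔞 : ℝ) + 1)⁻¹ : ℝ) : ℂ)) • fun x : G =>
        ∑ i, ((‖P.Ad (P.κ x) (stdOrthonormalBasis ℝ P.𝔞 i : 𝔤) -
          (stdOrthonormalBasis ℝ P.𝔞 i : 𝔤)‖ ^ 2 : ℝ) : ℂ)) := by
    funext x
    simp only [Pi.add_apply, Pi.smul_apply, smul_eq_mul, Fl]
    push_cast
    ring
  rw [h1]
  exact (KFinite.const P _).add ((KFinite.sum _ fun i _ => kfinite_norm_sq P _).smul _)

theorem kfinite_Dt : KFinite P (fun x : G => ((P.Dt (P.κ x) : ℝ) : ℂ)) := by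
  classical
  set b := stdOrthonormalBasis ℝ 𝔤 with hb
  have h1 : ∀ x : G, ((P.Dt (P.κ x) : ℝ) : ℂ) =
      ∑ σ : Equiv.Perm (Fin (Module.finrank ℝ 𝔤)), ((Equiv.Perm.sign σ : ℤ) : ℂ) *
        ∏ i, (((⟪P.En (b (σ i)), P.Ad (P.κ x) (P.En (b i))⟫ : ℝ) : ℂ) +
          ((⟪b (σ i), b i - P.En (b i)⟫ : ℝ) : ℂ)) := by
    intro x
    rw [ParData.Dt, ← LinearMap.det_toMatrix b.toBasis, Matrix.det_apply]
    rw [Complex.ofReal_sum]
    refine Finset.sum_congr rfl fun σ _ => ?_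
    rw [Units.smul_def, zsmul_eq_mul, Complex.ofReal_mul, Complex.ofReal_prod]
    refine congrArg₂ (· * ·) (by simp) ?_
    · refine Finset.prod_congr rfl fun i _ => ?_
      rw [LinearMap.toMatrix_apply, ← Complex.ofReal_add]
      congr 1
      rw [b.coe_toBasis, b.coe_toBasis_repr_apply, b.repr_apply_apply]
      simp only [LinearMap.add_apply, LinearMap.comp_apply, LinearMap.sub_apply,
        LinearMap.id_apply, ContinuousLinearMap.coe_coe, inner_add_right]
      congr 1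
      rw [ParData.En, Submodule.inner_starProjection_left_eq_right]
  simp_rw [h1]
  refine KFinite.sum _ fun σ _ => KFinite.mul' (KFinite.const P _) (KFinite.prod _ fun i _ => ?_)
  exact (kfinite_Ad P _ _).add (KFinite.const P _)

theorem Fl_mul_exp_𝔞 (x : G) {H : 𝔤} (hH : H ∈ P.𝔞) : Fl P (x * P.exp H) = Fl P x := by
  simp only [Fl, P.κ_mul_exp_𝔞 x hH]

theorem Fl_mul_exp_𝔫 (x : G) {X : 𝔤} (hX : X ∈ P.𝔫) : Fl P (x * P.exp X) = Fl P x := by
  simp only [Fl, P.κ_mul_exp_𝔫 x hX]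

theorem Fl_mul_M (x : G) {m : G} (hm : m ∈ P.M) : Fl P (x * m) = Fl P x := by
  simp only [Fl, P.κ_mul_M x hm, map_mul, Module.End.mul_apply]
  congr 2
  refine Finset.sum_congr rfl fun i _ => ?_
  rw [hm.2 _ (stdOrthonormalBasis ℝ P.𝔞 i).2]

/-- the module `V` is stable under multiplication by `Fl^J D²` -/
theorem cutoff_mem_V {U : Type u} [NormedAddCommGroup U] [InnerProductSpace ℂ U]
    {R : RepData P U} {f : G → U} (hf : f ∈ V R) (J : ℕ) (a : ℂ) :
    (fun x => (a * ((Fl P x ^ J * P.Dt (P.κ x) ^ 2 : ℝ) : ℂ)) • f x) ∈ V R := by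
  obtain ⟨h1, h2, h3⟩ := hf
  refine ⟨?_, ⟨?_, ?_, ?_⟩, ?_⟩
  · refine (continuous_const.mul (Complex.continuous_ofReal.comp ?_)).smul h1
    exact ((continuous_Fl P).pow J).mul ((P.continuous_Dt.comp P.continuous_κ).pow 2)
  · intro x m
    simp only [Fl_mul_M P x m.2, P.κ_mul_M x m.2, P.Dt_mul_M_sq _ m.2, h2.map_M, map_smul]
  · intro x H hH
    simp only [Fl_mul_exp_𝔞 P x hH, P.κ_mul_exp_𝔞 x hH, h2.map_A x H hH]
    rw [smul_comm]
  · intro x X hX
    simp only [Fl_mul_exp_𝔫 P x hX, P.κ_mul_exp_𝔫 x hX, h2.map_N x X hX]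
  · refine KFinite.mul (KFinite.mul' (KFinite.const P a) ?_) h3
    have h4 : (fun x : G => ((Fl P x ^ J * P.Dt (P.κ x) ^ 2 : ℝ) : ℂ)) =
        fun x : G => ((Fl P x : ℝ) : ℂ) ^ J * ((P.Dt (P.κ x) : ℝ) : ℂ) ^ 2 := by
      funext x
      push_cast
      ring
    rw [h4]
    exact KFinite.mul' (KFinite.pow (kfinite_Fl P) J) (KFinite.pow (kfinite_Dt P) 2)

end ParData

end Pool.Agent.Helper44.SG
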