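import Pool.Agent.Helper38.SG.Coef
import Pool.Agent.Helper38.SG.GNormDefs
import Pool.Agent.Helper38.SG.Avg2
import Pool.Agent.Helper38.SG.HeatV
import Pool.Agent.Helper38.SG.FCalcB

/-! # Sobolev gap, piece GNORM: properties of norms in `Norm(V)` and their duals -/

open Filter Topology Set MeasureTheory
open scoped RealInnerProductSpace ContDiff

universe u

namespace Pool.Agent.Helper44.SG

open Pool.Agent.Helper38.SG

variable {G 𝔤 : Type u} [Group G] [TopologicalSpace G] [IsTopologicalGroup G] [T2Space G]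
  [NormedAddCommGroup 𝔤] [InnerProductSpace ℝ 𝔤] [FiniteDimensional ℝ 𝔤] {P : ParData G 𝔤}
  {U : Type u} [NormedAddCommGroup U] [InnerProductSpace ℂ U] [FiniteDimensional ℂ U]

section Sup

variable {E : Type u} [NormedAddCommGroup E] [NormedSpace ℂ E] {R : RepData P U}
  (j : V R →ₗ[ℂ] E) {C₀ : ℝ} (hC : ∀ k f, ‖j (kact R k f)‖ ≤ C₀ * ‖j f‖)
include hC

omit [FiniteDimensional ℂ U] in
theorem bdd_sup (f : V R) : BddAbove (range fun k : P.K => ‖j (kact R k f)‖) :=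
  ⟨C₀ * ‖j f‖, by rintro _ ⟨k, rfl⟩; exact hC k f⟩

/-- the `K`-invariant seminorm `f ↦ sup_k ‖j (k f)‖` -/
noncomputable def supS : Seminorm ℝ (V R) where
  toFun f := ⨆ k : P.K, ‖j (kact R k f)‖
  map_zero' := by simp
  add_le' f g := ciSup_le fun k => by
    rw [map_add, map_add]
    exact (norm_add_le _ _).trans (add_le_add (le_ciSup (bdd_sup j hC f) k)
      (le_ciSup (bdd_sup j hC g) k))
  neg' f := by simp
  smul' a f := by
    have h1 : ∀ k : P.K, ‖j (kact R k (a • f))‖ = ‖a‖ * ‖j (kact R k f)‖ := fun k => by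
      rw [LinearMap.map_smul_of_tower, LinearMap.map_smul_of_tower, norm_smul]
    simp_rw [h1]
    exact (Real.mul_iSup_of_nonneg (norm_nonneg a) _).symm

theorem supS_apply (f : V R) : supS j hC f = ⨆ k : P.K, ‖j (kact R k f)‖ := rfl

theorem supS_kact (k : P.K) (f : V R) : supS j hC (kact R k f) ≤ supS j hC f := by
  rw [supS_apply, supS_apply]
  refine ciSup_le fun l => ?_
  rw [← Module.End.mul_apply, ← map_mul]
  exact le_ciSup (bdd_sup j hC f) (l * k)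

theorem le_supS (f : V R) : ‖j f‖ ≤ supS j hC f := by
  rw [supS_apply]
  have := le_ciSup (bdd_sup j hC f) 1
  simpa using this

theorem supS_le (f : V R) : supS j hC f ≤ C₀ * ‖j f‖ := by
  rw [supS_apply]
  exact ciSup_le fun k => hC k f

theorem heat_j {u : ℝ} (hu : 0 < u) (f : V R) : ‖j (Pu R u f)‖ ≤ C₀ * ‖j f‖ :=
  (le_supS j hC _).trans (((heat_V (supS j hC) (supS_kact j hC) hu f).1).trans (supS_le j hC f))

end Sup

variable [MeasurableSpace P.K] [BorelSpace P.K] (μ : Measure P.K) [IsProbabilityMeasure μ]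
  [μ.IsMulLeftInvariant] [μ.IsMulRightInvariant] [μ.IsInvInvariant] [μ.IsOpenPosMeasure]

omit [IsTopologicalGroup G] [T2Space G] [FiniteDimensional ℝ 𝔤] [FiniteDimensional ℂ U]
  [BorelSpace P.K] [IsProbabilityMeasure μ] [μ.IsMulLeftInvariant] [μ.IsMulRightInvariant]
  [μ.IsInvInvariant] [μ.IsOpenPosMeasure] in
theorem pair_conj' (h f : G → U) : (starRingEnd ℂ) (pair μ h f) = pair μ f h := by
  unfold pair
  rw [← integral_conj]
  simp only [inner_conj_symm]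

/-- everything we need from a norm in `Norm(V)` -/
theorem gnorm_data {R : RepData P U} {p : V R → ℝ} (hp : IsGNorm R p) :
    ∃ (E : Type u) (_ : NormedAddCommGroup E) (_ : NormedSpace ℂ E) (_ : CompleteSpace E)
      (π : G →* (E →L[ℂ] E)) (j : V R →ₗ[ℂ] E) (C₀ : ℝ) (L : V R → (E →L[ℂ] ℂ)), 0 ≤ C₀ ∧
      (∀ g v, ‖π g v‖ ≤ C₀ * ‖v‖) ∧ (∀ f, ‖j f‖ = p f) ∧ Function.Injective j ∧ DenseRange j ∧
      (∀ k f, ‖j (kact R k f)‖ ≤ C₀ * ‖j f‖) ∧
      (∀ h f : V R, L h (j f) = pair μ (h : G → U) (f : G → U)) ∧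
      (∀ (h f : V R) (g : G), L h (π g (j f)) = pair μ (h : G → U) (lt g (f : G → U))) ∧
      (∀ (h : V R) (C : ℝ), 0 ≤ C →
        (∀ f : V R, ‖pair μ (h : G → U) (f : G → U)‖ ≤ C * ‖j f‖) → ‖L h‖ ≤ C) := by
  obtain ⟨E, i1, i2, i3, π, j, hcont, ⟨C₀, hC⟩, hpj, hinj, hdense, hK, hX, hKfin⟩ := hp
  have hC1 : ∀ g v, ‖π g v‖ ≤ max C₀ 0 * ‖v‖ := fun g v =>
    (hC g v).trans (mul_le_mul_of_nonneg_right (le_max_left _ _) (norm_nonneg _))
  have hk : ∀ (k : P.K) (f : V R), π k (j f) = j (kact R k f) := fun k f =>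
    hK k k.2 f (kact R k f) rfl
  have hj : ∀ (X : 𝔤) (f : V R),
      HasDerivAt (fun t : ℝ => π (P.exp (t • X)) (j f)) (j (act R X f)) 0 := fun X f =>
    hX X f (act R X f) ((lDer_iff (smooth_of_mem_V f.2) X _).2 rfl)
  have hCk : ∀ k f, ‖j (kact R k f)‖ ≤ max C₀ 0 * ‖j f‖ := fun k f => by
    rw [← hk]
    exact hC1 _ _
  obtain ⟨b, hb⟩ := exists_pairV (R := R) μ
  have hbd : ∀ h : V R, ∃ C, ∀ f, ‖b h f‖ ≤ C * ‖j f‖ := fun h => by
    obtain ⟨C, _, hC⟩ := pair_le μ j hinj hCk h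
    exact ⟨C, fun f => by rw [hb]; exact hC f⟩
  have hL : ∀ h f : V R, (b h).extendOfNorm j (j f) = pair μ (h : G → U) (f : G → U) :=
    fun h f => by rw [LinearMap.extendOfNorm_eq hdense (hbd h), hb]
  refine ⟨E, i1, i2, i3, π, j, max C₀ 0, fun h => (b h).extendOfNorm j, le_max_right _ _, hC1,
    hpj, hinj, hdense, hCk, hL, fun h f g => ?_, fun h C hC0 hC => ?_⟩
  · exact coef μ π hC1 j hj hk _ h (hL h) g f
  · exact LinearMap.opNorm_extendOfNorm_le hdense hC0 fun f => by rw [hb]; exact hC f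

/-- GNORM-A -/
theorem IsGNorm.good {R : RepData P U} {p : V R → ℝ} (hp : IsGNorm R p) : GoodNorm μ R p := by
  obtain ⟨E, i1, i2, i3, π, j, C₀, L, hC₀, hC, hpj, hinj, hdense, hCk, hL, hcoef, hop⟩ :=
    gnorm_data μ hp
  refine ⟨fun f => by rw [← hpj]; exact norm_nonneg _, fun ξ => ⟨‖L ξ‖ * C₀, fun f g => ?_⟩,
    C₀, fun u hu f => ?_⟩
  · rw [← hcoef ξ f g, ← hpj, mul_assoc]
    exact (ContinuousLinearMap.le_opNorm _ _).trans
      (mul_le_mul_of_nonneg_left (hC _ _) (norm_nonneg _))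
  · rw [← hpj, ← hpj]
    exact heat_j j hCk hu f

/-- GNORM-B: the dual norm -/
theorem IsGNorm.dual {R : RepData P U} {p : V R → ℝ} (hp : IsGNorm R p) :
    ∃ p' : V R → ℝ, GoodNorm μ R p' ∧
      (∀ h f : V R, ‖pair μ (h : G → U) (f : G → U)‖ ≤ p' h * p f) ∧
      ∃ C : ℝ, 0 ≤ C ∧ ∀ (w : V R) (ε : ℝ), 0 < ε → ∃ h : V R, p' h ≤ C ∧
        p w ≤ ‖pair μ (h : G → U) (w : G → U)‖ + ε := by
  obtain ⟨E, i1, i2, i3, π, j, C₀, L, hC₀, hC, hpj, hinj, hdense, hCk, hL, hcoef, hop⟩ :=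
    gnorm_data μ hp
  have hle : ∀ h f : V R, ‖pair μ (h : G → U) (f : G → U)‖ ≤ ‖L h‖ * ‖j f‖ := fun h f => by
    rw [← hL]
    exact ContinuousLinearMap.le_opNorm _ _
  refine ⟨fun h => ‖L h‖, ⟨fun h => norm_nonneg _, fun ξ => ⟨C₀ * ‖j ξ‖, fun f g => ?_⟩,
    C₀, fun u hu h => ?_⟩, fun h f => by rw [← hpj]; exact hle h f, C₀, hC₀,
    fun w ε hε => ?_⟩
  · have h1 : pair μ (ξ : G → U) (lt g (f : G → U)) =
        (starRingEnd ℂ) (L f (π g⁻¹ (j ξ))) := by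
      rw [hcoef f ξ g⁻¹, pair_conj']
      have h2 := pair_lt μ (R := R) (h := lt g⁻¹ (ξ : G → U)) (f := (f : G → U))
        (ξ.2.2.1.lt g⁻¹) f.2.2.1
        ((smooth_of_mem_V ξ.2).comp_mul_left _ _) (smooth_of_mem_V f.2) g
      rw [← h2, lt_lt, mul_inv_cancel, lt_one]
    rw [h1, RCLike.norm_conj]
    calc ‖L f (π g⁻¹ (j ξ))‖ ≤ ‖L f‖ * ‖π g⁻¹ (j ξ)‖ := ContinuousLinearMap.le_opNorm _ _
      _ ≤ ‖L f‖ * (C₀ * ‖j ξ‖) := mul_le_mul_of_nonneg_left (hC _ _) (norm_nonneg _)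
      _ = C₀ * ‖j ξ‖ * ‖L f‖ := by ring
  · refine hop _ _ (mul_nonneg hC₀ (norm_nonneg _)) fun f => ?_
    have h1 : pair μ (Pu R u h : G → U) (f : G → U) = pair μ (h : G → U) (Pu R u f : G → U) :=
      pair_fc μ R _ h f
    rw [h1]
    calc ‖pair μ (h : G → U) (Pu R u f : G → U)‖ ≤ ‖L h‖ * ‖j (Pu R u f)‖ := hle _ _
      _ ≤ ‖L h‖ * (C₀ * ‖j f‖) := mul_le_mul_of_nonneg_left (heat_j j hCk hu f) (norm_nonneg _)
      _ = C₀ * ‖L h‖ * ‖j f‖ := by ring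
  · obtain ⟨h, h1, h2⟩ := exists_dual μ j hinj hCk w hε
    exact ⟨h, hop _ _ hC₀ h1, by rw [← hpj]; exact h2⟩

end Pool.Agent.Helper44.SG
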