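import Pool.Agent.Helper38.SG.Basic

/-! # Sobolev gap, piece REP: finite dimensional representations of `K` -/

open Filter Topology Set MeasureTheory
open scoped RealInnerProductSpace ContDiff

universe u

namespace Pool.Agent.Helper44.SG

open Pool.Agent.Helper38.SG

section alg

variable {𝔸 : Type*} [NormedRing 𝔸] [NormedAlgebra ℝ 𝔸] [CompleteSpace 𝔸]

theorem exp_inj_of_all {A B : 𝔸} (h : ∀ t : ℝ, NormedSpace.exp (t • A) = NormedSpace.exp (t • B)) :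
    A = B := by
  have h1 := hasDerivAt_exp_smul_const (𝕂 := ℝ) A 0
  have h2 := hasDerivAt_exp_smul_const (𝕂 := ℝ) B 0
  have h3 : (fun u : ℝ => NormedSpace.exp (u • A)) = fun u : ℝ => NormedSpace.exp (u • B) := by
    ext u; exact h u
  rw [h3] at h1
  have h4 := h1.unique h2
  simpa using h4

theorem norm_pow_sub_pow_le (h1 : ‖(1 : 𝔸)‖ ≤ 1) {x y : 𝔸} {R : ℝ} (hR : 1 ≤ R) (hx : ‖x‖ ≤ R)
    (hy : ‖y‖ ≤ R) (n : ℕ) : ‖x ^ n - y ^ n‖ ≤ n * ‖x - y‖ * R ^ n := by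
  have hyn : ∀ n : ℕ, ‖y ^ n‖ ≤ R ^ n := by
    intro n
    induction n with
    | zero => simpa using h1
    | succ n ih =>
      rw [pow_succ, pow_succ]
      exact (norm_mul_le _ _).trans (mul_le_mul ih hy (norm_nonneg _) (by positivity))
  induction n with
  | zero => simp
  | succ n ih =>
    have h2 : x ^ (n + 1) - y ^ (n + 1) = x * (x ^ n - y ^ n) + (x - y) * y ^ n := by
      rw [pow_succ', pow_succ']; noncomm_ring
    rw [h2]
    refine (norm_add_le _ _).trans ?_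
    have h3 : ‖x * (x ^ n - y ^ n)‖ ≤ R * (n * ‖x - y‖ * R ^ n) :=
      (norm_mul_le _ _).trans (mul_le_mul hx ih (norm_nonneg _) (by positivity))
    have h4 : ‖(x - y) * y ^ n‖ ≤ ‖x - y‖ * R ^ n :=
      (norm_mul_le _ _).trans (mul_le_mul_of_nonneg_left (hyn n) (norm_nonneg _))
    have h5 : ‖x - y‖ * R ^ n ≤ ‖x - y‖ * (R * R ^ n) := by
      apply mul_le_mul_of_nonneg_left _ (norm_nonneg _)
      exact le_mul_of_one_le_left (by positivity) hR
    have h6 : (↑(n + 1) : ℝ) * ‖x - y‖ * R ^ (n + 1) =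
        R * (n * ‖x - y‖ * R ^ n) + ‖x - y‖ * (R * R ^ n) := by
      push_cast; ring
    rw [h6]
    linarith

/-- the power limit -/
theorem tendsto_pow_exp (h1 : ‖(1 : 𝔸)‖ ≤ 1) {x : ℕ → 𝔸} {C : 𝔸}
    (hx : Tendsto (fun n : ℕ => (n : ℝ) • (x n - 1)) atTop (𝓝 C)) :
    Tendsto (fun n => x n ^ n) atTop (𝓝 (NormedSpace.exp C)) := by
  let _ : NormedAlgebra ℚ 𝔸 := NormedAlgebra.restrictScalars ℚ ℝ 𝔸
  have hn0 : Tendsto (fun n : ℕ => ((n : ℝ))⁻¹) atTop (𝓝 0) := tendsto_inv_atTop_nhds_zero_nat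
  have key : Tendsto (fun n : ℕ => (n : ℝ) • (NormedSpace.exp (((n : ℝ))⁻¹ • C) - 1)) atTop
      (𝓝 C) := by
    have h2 := hasDerivAt_exp_smul_const (𝕂 := ℝ) C 0
    rw [hasDerivAt_iff_tendsto_slope_zero] at h2
    simp only [zero_smul, NormedSpace.exp_zero, one_mul, zero_add] at h2
    have h3 : Tendsto (fun n : ℕ => ((n : ℝ))⁻¹) atTop (𝓝[≠] 0) := by
      rw [tendsto_nhdsWithin_iff]
      refine ⟨hn0, ?_⟩
      filter_upwards [eventually_gt_atTop 0] with n hn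
      simp; omega
    have h4 := h2.comp h3
    refine h4.congr ?_
    intro n
    simp
  have hd : Tendsto (fun n : ℕ => (n : ℝ) * ‖x n - NormedSpace.exp (((n : ℝ))⁻¹ • C)‖) atTop
      (𝓝 0) := by
    have h2 := (hx.sub key).norm
    rw [sub_self, norm_zero] at h2
    refine h2.congr ?_
    intro n
    rw [← smul_sub, norm_smul, sub_sub_sub_cancel_right]
    simp
  obtain ⟨M, hM0, hM⟩ : ∃ M : ℝ, 0 ≤ M ∧ ∀ᶠ n : ℕ in atTop, ‖(n : ℝ) • (x n - 1)‖ ≤ M ∧
      ‖(n : ℝ) • (NormedSpace.exp (((n : ℝ))⁻¹ • C) - 1)‖ ≤ M := by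
    refine ⟨‖C‖ + 1, by positivity, ?_⟩
    have h2 := hx.norm.eventually_lt_const (show ‖C‖ < ‖C‖ + 1 by linarith)
    have h3 := key.norm.eventually_lt_const (show ‖C‖ < ‖C‖ + 1 by linarith)
    filter_upwards [h2, h3] with n h4 h5
    exact ⟨h4.le, h5.le⟩
  have hbound : ∀ᶠ n : ℕ in atTop, ‖x n ^ n - NormedSpace.exp C‖ ≤
      (n * ‖x n - NormedSpace.exp (((n : ℝ))⁻¹ • C)‖) * Real.exp M := by
    filter_upwards [hM, eventually_gt_atTop 0] with n hn hn0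
    have hnpos : (0 : ℝ) < n := by exact_mod_cast hn0
    have hbd : ∀ z : 𝔸, ‖(n : ℝ) • (z - 1)‖ ≤ M → ‖z‖ ≤ 1 + M / n := by
      intro z hz
      rw [norm_smul, Real.norm_of_nonneg hnpos.le] at hz
      have h2 : ‖z - 1‖ ≤ M / n := by rw [le_div_iff₀ hnpos]; linarith
      calc ‖z‖ = ‖1 + (z - 1)‖ := by congr 1; abel
        _ ≤ ‖(1 : 𝔸)‖ + ‖z - 1‖ := norm_add_le _ _
        _ ≤ 1 + M / n := by linarith
    have h2 := norm_pow_sub_pow_le h1 (R := 1 + M / n) (by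
      have : 0 ≤ M / n := by positivity
      linarith) (hbd _ hn.1) (hbd _ hn.2) n
    have h3 : NormedSpace.exp (((n : ℝ))⁻¹ • C) ^ n = NormedSpace.exp C := by
      rw [← NormedSpace.exp_nsmul, ← Nat.cast_smul_eq_nsmul ℝ, smul_smul,
        mul_inv_cancel₀ hnpos.ne', one_smul]
    rw [h3] at h2
    refine h2.trans ?_
    apply mul_le_mul_of_nonneg_left _ (by positivity)
    have h4 : 1 + M / n ≤ Real.exp (M / n) := by
      have := Real.add_one_le_exp (M / n); linarith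
    calc (1 + M / n) ^ n ≤ Real.exp (M / n) ^ n :=
          pow_le_pow_left₀ (by positivity) h4 n
      _ = Real.exp M := by
          rw [← Real.exp_nat_mul]; congr 1; field_simp
  have h5 : Tendsto (fun n : ℕ => (n * ‖x n - NormedSpace.exp (((n : ℝ))⁻¹ • C)‖) * Real.exp M)
      atTop (𝓝 0) := by
    have := hd.mul_const (Real.exp M)
    simpa using this
  rw [tendsto_iff_norm_sub_tendsto_zero]
  exact squeeze_zero' (Eventually.of_forall fun _ => norm_nonneg _) hbound h5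

/-- Lie product formula -/
theorem tendsto_lie_product (h1 : ‖(1 : 𝔸)‖ ≤ 1) (A B : 𝔸) :
    Tendsto (fun n : ℕ => (NormedSpace.exp (((n : ℝ))⁻¹ • A) * NormedSpace.exp (((n : ℝ))⁻¹ • B)) ^ n)
      atTop (𝓝 (NormedSpace.exp (A + B))) := by
  apply tendsto_pow_exp h1
  have h2 := (hasDerivAt_exp_smul_const (𝕂 := ℝ) A 0).mul (hasDerivAt_exp_smul_const (𝕂 := ℝ) B 0)
  simp only [zero_smul, NormedSpace.exp_zero, one_mul, mul_one] at h2
  rw [hasDerivAt_iff_tendsto_slope_zero] at h2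
  have h3 : Tendsto (fun n : ℕ => ((n : ℝ))⁻¹) atTop (𝓝[≠] 0) := by
    rw [tendsto_nhdsWithin_iff]
    refine ⟨tendsto_inv_atTop_nhds_zero_nat, ?_⟩
    filter_upwards [eventually_gt_atTop 0] with n hn
    simp; omega
  have h4 := h2.comp h3
  refine h4.congr ?_
  intro n
  simp

/-- a continuous one-parameter group in a Banach algebra is `exp (t A)` -/
theorem exists_generator {u : ℝ → 𝔸} (hu : Continuous u) (h0 : u 0 = 1)
    (hadd : ∀ s t, u (s + t) = u s * u t) : ∃ A : 𝔸, ∀ t, u t = NormedSpace.exp (t • A) := by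
  let _ : NormedAlgebra ℚ 𝔸 := NormedAlgebra.restrictScalars ℚ ℝ 𝔸
  -- the primitive
  have hI : ∀ a b : ℝ, IntervalIntegrable u volume a b := fun a b => hu.intervalIntegrable a b
  have hd : ∀ t, HasDerivAt (fun t => ∫ s in (0 : ℝ)..t, u s) (u t) t := fun t =>
    intervalIntegral.integral_hasDerivAt_right (hI 0 t)
      (hu.stronglyMeasurableAtFilter _ _) hu.continuousAt
  -- an invertible average
  obtain ⟨ε, hε, hV⟩ : ∃ ε : ℝ, 0 < ε ∧ IsUnit (∫ s in (0 : ℝ)..ε, u s) := by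
    have h1 := hd 0
    rw [hasDerivAt_iff_tendsto_slope_zero] at h1
    simp only [intervalIntegral.integral_same, zero_add, sub_zero, h0] at h1
    have h2 : ∀ᶠ t : ℝ in 𝓝[≠] 0, IsUnit (t⁻¹ • ∫ s in (0 : ℝ)..t, u s) :=
      h1.eventually (Units.isOpen.mem_nhds isUnit_one)
    have h3 : ∀ᶠ t : ℝ in 𝓝[>] 0, IsUnit (t⁻¹ • ∫ s in (0 : ℝ)..t, u s) :=
      h2.filter_mono (nhdsWithin_mono _ fun x hx => ne_of_gt hx)
    obtain ⟨ε, hε1, hε2⟩ := (h3.and self_mem_nhdsWithin).exists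
    refine ⟨ε, hε2, ?_⟩
    have h4 : (∫ s in (0 : ℝ)..ε, u s) = algebraMap ℝ 𝔸 ε * (ε⁻¹ • ∫ s in (0 : ℝ)..ε, u s) := by
      rw [← Algebra.smul_def, smul_smul, mul_inv_cancel₀ (ne_of_gt hε2), one_smul]
    rw [h4]
    exact ((IsUnit.mk0 ε (ne_of_gt hε2)).map (algebraMap ℝ 𝔸)).mul hε1
  obtain ⟨V, hV⟩ := hV
  have hshift : ∀ t, u t = ((∫ s in (0 : ℝ)..(t + ε), u s) - ∫ s in (0 : ℝ)..t, u s) * ↑V⁻¹ := by
    intro t
    have h1 : (∫ s in (0 : ℝ)..(t + ε), u s) - ∫ s in (0 : ℝ)..t, u s = u t * V := by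
      rw [intervalIntegral.integral_interval_sub_left (hI _ _) (hI _ _), hV]
      have h2 : (∫ s in (0 : ℝ)..ε, u (t + s)) = ∫ s in t..(t + ε), u s := by
        rw [intervalIntegral.integral_comp_add_left (fun s => u s) t]
        simp
      rw [← h2]
      have h3 : (fun s => u (t + s)) = fun s => u t * u s := by ext s; exact hadd t s
      rw [h3]
      exact (ContinuousLinearMap.mul ℝ 𝔸 (u t)).intervalIntegral_comp_comm (hI 0 ε)
    rw [h1, mul_assoc, Units.mul_inv, mul_one]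
  have hdu : ∃ A, HasDerivAt u A 0 := by
    refine ⟨(u (0 + ε) - u 0) * ↑V⁻¹, ?_⟩
    have h1 : HasDerivAt (fun t => ∫ s in (0 : ℝ)..(t + ε), u s) (u (0 + ε)) 0 := by
      have := (hd (0 + ε)).comp_add_const 0 ε
      exact this
    have h2 := (h1.sub (hd 0)).mul_const (↑V⁻¹ : 𝔸)
    refine h2.congr_of_eventuallyEq (Eventually.of_forall fun t => ?_)
    exact hshift t
  obtain ⟨A, hA⟩ := hdu
  refine ⟨A, ?_⟩
  have hdt : ∀ t, HasDerivAt u (u t * A) t := by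
    intro t
    have h1 : HasDerivAt (fun s => u t * u (s - t)) (u t * A) t := by
      have h2 : HasDerivAt (fun s => u (s - t)) A t := by
        have := (show HasDerivAt u A (t - t) by rw [sub_self]; exact hA).comp_sub_const t t
        exact this
      exact h2.const_mul (u t)
    refine h1.congr_of_eventuallyEq (Eventually.of_forall fun s => ?_)
    show u s = u t * u (s - t)
    rw [← hadd]; congr 1; ring
  have hconst : ∀ t, u t * NormedSpace.exp ((-t) • A) = 1 := by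
    have hdz : ∀ t, HasDerivAt (fun t => u t * NormedSpace.exp ((-t) • A)) 0 t := by
      intro t
      have h1 : HasDerivAt (fun t : ℝ => NormedSpace.exp ((-t) • A))
          (-(A * NormedSpace.exp ((-t) • A))) t := by
        have h2 := (hasDerivAt_exp_smul_const' (𝕂 := ℝ) A (-t)).scomp t (hasDerivAt_neg t)
        rw [neg_one_smul] at h2
        exact h2
      have h3 : HasDerivAt (fun t => u t * NormedSpace.exp ((-t) • A))
          (u t * A * NormedSpace.exp ((-t) • A) + u t * -(A * NormedSpace.exp ((-t) • A))) t :=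
        (hdt t).mul h1
      rw [mul_neg, mul_assoc, add_neg_cancel] at h3
      exact h3
    intro t
    have h4 := is_const_of_deriv_eq_zero (fun t => (hdz t).differentiableAt)
      (fun t => (hdz t).deriv) t 0
    simpa [h0] using h4
  intro t
  have h1 := hconst t
  have h2 : NormedSpace.exp ((-t) • A) * NormedSpace.exp (t • A) = 1 := by
    rw [← NormedSpace.exp_add_of_commute ((Commute.refl A).smul_left _ |>.smul_right _)]
    rw [← add_smul, neg_add_cancel, zero_smul, NormedSpace.exp_zero]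
  calc u t = u t * (NormedSpace.exp ((-t) • A) * NormedSpace.exp (t • A)) := by rw [h2, mul_one]
    _ = NormedSpace.exp (t • A) := by rw [← mul_assoc, h1, one_mul]

end alg

section lie

variable {G 𝔤 : Type u} [Group G] [TopologicalSpace G]
  [NormedAddCommGroup 𝔤] [InnerProductSpace ℝ 𝔤]

/-- `n m(Y/n, Z/n) → Y + Z` in logarithmic coordinates -/
theorem exists_log_prod (L : LieData G 𝔤) (Y Z : 𝔤) :
    ∃ q : ℕ → 𝔤, (∀ᶠ n : ℕ in atTop, L.exp (q n) = L.exp (((n : ℝ))⁻¹ • Y) * L.exp (((n : ℝ))⁻¹ • Z)) ∧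
      Tendsto (fun n : ℕ => (n : ℝ) • q n) atTop (𝓝 (Y + Z)) := by
  obtain ⟨m, hm1, hm0, hm2⟩ := L.mul_smooth
  obtain ⟨e, he0, he1⟩ := L.exp_chart
  have hmc : ContinuousAt m (0, 0) := hm1.continuousAt
  have hinj : ∀ᶠ p in 𝓝 ((0, 0) : 𝔤 × 𝔤), m p ∈ e.source ∧ p.1 ∈ e.source ∧ p.2 ∈ e.source := by
    have h1 : ∀ᶠ p in 𝓝 ((0, 0) : 𝔤 × 𝔤), m p ∈ e.source := by
      apply hmc.eventually_mem
      rw [hm0]
      exact e.open_source.mem_nhds he0
    have h2 : ∀ᶠ p in 𝓝 ((0, 0) : 𝔤 × 𝔤), p.1 ∈ e.source :=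
      continuousAt_fst.eventually_mem (e.open_source.mem_nhds he0)
    have h3 : ∀ᶠ p in 𝓝 ((0, 0) : 𝔤 × 𝔤), p.2 ∈ e.source :=
      continuousAt_snd.eventually_mem (e.open_source.mem_nhds he0)
    exact h1.and (h2.and h3)
  have hX : ∀ᶠ X in 𝓝 (0 : 𝔤), m (X, 0) = X := by
    have h1 : Tendsto (fun X : 𝔤 => ((X, 0) : 𝔤 × 𝔤)) (𝓝 0) (𝓝 (0, 0)) := by
      have : Continuous (fun X : 𝔤 => ((X, 0) : 𝔤 × 𝔤)) := by fun_prop
      exact this.tendsto 0
    filter_upwards [h1.eventually hm2, h1.eventually hinj] with X h2 h3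
    rw [L.exp_zero, mul_one] at h2
    apply e.injOn h3.1 h3.2.1
    rw [he1 _ h3.1, he1 _ h3.2.1]
    exact h2.symm
  have hY : ∀ᶠ X in 𝓝 (0 : 𝔤), m (0, X) = X := by
    have h1 : Tendsto (fun X : 𝔤 => ((0, X) : 𝔤 × 𝔤)) (𝓝 0) (𝓝 (0, 0)) := by
      have : Continuous (fun X : 𝔤 => ((0, X) : 𝔤 × 𝔤)) := by fun_prop
      exact this.tendsto 0
    filter_upwards [h1.eventually hm2, h1.eventually hinj] with X h2 h3
    rw [L.exp_zero, one_mul] at h2
    apply e.injOn h3.1 h3.2.2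
    rw [he1 _ h3.1, he1 _ h3.2.2]
    exact h2.symm
  have hdm : HasFDerivAt m (fderiv ℝ m (0, 0)) (0, 0) :=
    (hm1.differentiableAt (by simp)).hasFDerivAt
  have hd1 : ∀ X : 𝔤, fderiv ℝ m (0, 0) (X, 0) = X := by
    intro X
    have h1 : HasFDerivAt (fun X : 𝔤 => m (X, 0))
        ((fderiv ℝ m (0, 0)).comp (ContinuousLinearMap.inl ℝ 𝔤 𝔤)) 0 := by
      have h2 : HasFDerivAt (fun X : 𝔤 => ((X, 0) : 𝔤 × 𝔤)) (ContinuousLinearMap.inl ℝ 𝔤 𝔤) 0 :=
        (ContinuousLinearMap.inl ℝ 𝔤 𝔤).hasFDerivAt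
      exact HasFDerivAt.comp (0 : 𝔤) (show HasFDerivAt m (fderiv ℝ m (0, 0)) ((0 : 𝔤), (0 : 𝔤)) from hdm) h2
    have h3 : HasFDerivAt (fun X : 𝔤 => m (X, 0)) (ContinuousLinearMap.id ℝ 𝔤) 0 :=
      (hasFDerivAt_id (0 : 𝔤)).congr_of_eventuallyEq hX
    have h4 := congrArg (fun T : 𝔤 →L[ℝ] 𝔤 => T X) (h1.unique h3)
    simpa using h4
  have hd2 : ∀ X : 𝔤, fderiv ℝ m (0, 0) (0, X) = X := by
    intro X
    have h1 : HasFDerivAt (fun X : 𝔤 => m (0, X))
        ((fderiv ℝ m (0, 0)).comp (ContinuousLinearMap.inr ℝ 𝔤 𝔤)) 0 := by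
      have h2 : HasFDerivAt (fun X : 𝔤 => ((0, X) : 𝔤 × 𝔤)) (ContinuousLinearMap.inr ℝ 𝔤 𝔤) 0 :=
        (ContinuousLinearMap.inr ℝ 𝔤 𝔤).hasFDerivAt
      exact HasFDerivAt.comp (0 : 𝔤) (show HasFDerivAt m (fderiv ℝ m (0, 0)) ((0 : 𝔤), (0 : 𝔤)) from hdm) h2
    have h3 : HasFDerivAt (fun X : 𝔤 => m (0, X)) (ContinuousLinearMap.id ℝ 𝔤) 0 :=
      (hasFDerivAt_id (0 : 𝔤)).congr_of_eventuallyEq hY
    have h4 := congrArg (fun T : 𝔤 →L[ℝ] 𝔤 => T X) (h1.unique h3)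
    simpa using h4
  have hn0 : Tendsto (fun n : ℕ => ((n : ℝ))⁻¹) atTop (𝓝 0) := tendsto_inv_atTop_nhds_zero_nat
  have hline : HasDerivAt (fun t : ℝ => m (t • Y, t • Z)) (Y + Z) 0 := by
    have h1 : HasDerivAt (fun t : ℝ => ((t • Y, t • Z) : 𝔤 × 𝔤)) (Y, Z) 0 := by
      have h2 : HasDerivAt (fun t : ℝ => t • Y) Y 0 := by
        simpa using (hasDerivAt_id (0 : ℝ)).smul_const Y
      have h3 : HasDerivAt (fun t : ℝ => t • Z) Z 0 := by
        simpa using (hasDerivAt_id (0 : ℝ)).smul_const Z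
      exact h2.prodMk h3
    have h2 : HasFDerivAt m (fderiv ℝ m (0, 0)) (((0 : ℝ) • Y, (0 : ℝ) • Z) : 𝔤 × 𝔤) := by
      rw [zero_smul, zero_smul]; exact hdm
    have h3 := h2.comp_hasDerivAt (0 : ℝ) h1
    have h4 : fderiv ℝ m (0, 0) (Y, Z) = Y + Z := by
      have h5 : ((Y, Z) : 𝔤 × 𝔤) = (Y, 0) + (0, Z) := by simp
      rw [h5, map_add, hd1, hd2]
    rw [h4] at h3
    exact h3
  refine ⟨fun n => m (((n : ℝ))⁻¹ • Y, ((n : ℝ))⁻¹ • Z), ?_, ?_⟩
  · have h1 : Tendsto (fun n : ℕ => ((((n : ℝ))⁻¹ • Y, ((n : ℝ))⁻¹ • Z) : 𝔤 × 𝔤)) atTop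
        (𝓝 (0, 0)) := by
      have h2 := (hn0.smul_const Y).prodMk_nhds (hn0.smul_const Z)
      rw [zero_smul, zero_smul] at h2
      exact h2
    filter_upwards [h1.eventually hm2] with n hn
    exact hn.symm
  · rw [hasDerivAt_iff_tendsto_slope_zero] at hline
    have h3 : Tendsto (fun n : ℕ => ((n : ℝ))⁻¹) atTop (𝓝[≠] 0) := by
      rw [tendsto_nhdsWithin_iff]
      refine ⟨hn0, ?_⟩
      filter_upwards [eventually_gt_atTop 0] with n hn
      simp; omega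
    have h4 := hline.comp h3
    refine h4.congr ?_
    intro n
    simp [hm0]

/-- REP: a continuous finite dimensional representation of `K` has a linear differential. -/
theorem exists_dRep {G 𝔤 : Type u} [Group G] [TopologicalSpace G] [IsTopologicalGroup G]
    [NormedAddCommGroup 𝔤] [InnerProductSpace ℝ 𝔤] [FiniteDimensional ℝ 𝔤] (P : ParData G 𝔤)
    {W : Type*} [NormedAddCommGroup W] [NormedSpace ℂ W] [FiniteDimensional ℂ W]
    (π : P.K →* (W →ₗ[ℂ] W)) (hπ : ∀ w, Continuous fun k => π k w) :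
    ∃ A : P.𝔨 →ₗ[ℝ] (W →L[ℂ] W), ∀ (Z : P.𝔨) (w : W),
      π ⟨P.exp Z, ParData.exp_mem Z⟩ w = NormedSpace.exp (A Z) w := by
  have : CompleteSpace W := FiniteDimensional.complete ℂ W
  have hone : ‖(1 : W →L[ℂ] W)‖ ≤ 1 := ContinuousLinearMap.norm_id_le
  obtain ⟨ρ, hρ⟩ : ∃ ρ : P.K → (W →L[ℂ] W), ∀ k w, ρ k w = π k w :=
    ⟨fun k => LinearMap.toContinuousLinearMap (π k), fun k w => rfl⟩
  have hρc : Continuous ρ := by
    rw [continuous_clm_apply]
    intro w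
    simp only [hρ]
    exact hπ w
  have hρ1 : ρ 1 = 1 := by
    ext w; rw [hρ, map_one]; rfl
  have hρm : ∀ k l, ρ (k * l) = ρ k * ρ l := by
    intro k l
    ext w
    rw [hρ, map_mul]
    show π k (π l w) = ρ k (ρ l w)
    rw [hρ, hρ]
  have hρp : ∀ (k : P.K) (n : ℕ), ρ (k ^ n) = ρ k ^ n := by
    intro k n
    induction n with
    | zero => rw [pow_zero, pow_zero, hρ1]
    | succ n ih => rw [pow_succ, pow_succ, hρm, ih]
  -- the one parameter groups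
  have hmem : ∀ (Z : P.𝔨) (t : ℝ), P.exp (t • (Z : 𝔤)) ∈ P.K := fun Z t => by
    have := ParData.exp_mem (P := P) (t • Z)
    simpa using this
  have hgen : ∀ Z : P.𝔨, ∃ A : W →L[ℂ] W, ∀ t : ℝ,
      ρ ⟨P.exp (t • (Z : 𝔤)), hmem Z t⟩ = NormedSpace.exp (t • A) := by
    intro Z
    apply exists_generator (u := fun t : ℝ => ρ ⟨P.exp (t • (Z : 𝔤)), hmem Z t⟩)
    · apply hρc.comp
      apply Continuous.subtype_mk
      exact P.continuous_exp.comp (continuous_id.smul continuous_const)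
    · have h1 : (⟨P.exp ((0 : ℝ) • (Z : 𝔤)), hmem Z 0⟩ : P.K) = 1 := by
        apply Subtype.ext
        show P.exp ((0 : ℝ) • (Z : 𝔤)) = 1
        rw [zero_smul]
        exact P.toLieData.exp_zero
      show ρ ⟨P.exp ((0 : ℝ) • (Z : 𝔤)), hmem Z 0⟩ = 1
      rw [h1, hρ1]
    · intro s t
      have h1 : (⟨P.exp ((s + t) • (Z : 𝔤)), hmem Z (s + t)⟩ : P.K) =
          ⟨P.exp (s • (Z : 𝔤)), hmem Z s⟩ * ⟨P.exp (t • (Z : 𝔤)), hmem Z t⟩ := by
        apply Subtype.ext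
        exact P.exp_add_smul s t Z
      show ρ ⟨P.exp ((s + t) • (Z : 𝔤)), hmem Z (s + t)⟩ = _
      rw [h1, hρm]
  choose A hA using hgen
  have hA1 : ∀ Z : P.𝔨, ρ ⟨P.exp (Z : 𝔤), ParData.exp_mem Z⟩ = NormedSpace.exp (A Z) := by
    intro Z
    have h1 := hA Z 1
    simp only [one_smul] at h1
    exact h1
  have hsmul : ∀ (c : ℝ) (Z : P.𝔨), A (c • Z) = c • A Z := by
    intro c Z
    apply exp_inj_of_all
    intro t
    rw [← hA (c • Z) t, smul_smul, ← hA Z (t * c)]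
    congr 2
    rw [← smul_smul]; rfl
  have hexpadd : ∀ Y Z : P.𝔨, NormedSpace.exp (A (Y + Z)) = NormedSpace.exp (A Y + A Z) := by
    intro Y Z
    obtain ⟨q, hq1, hq2⟩ := exists_log_prod P.toLieData (Y : 𝔤) (Z : 𝔤)
    have h1 : Tendsto (fun n : ℕ => P.exp ((n : ℝ) • q n)) atTop (𝓝 (P.exp ((Y : 𝔤) + Z))) :=
      (P.continuous_exp.tendsto _).comp hq2
    -- elements of `K`
    obtain ⟨k, hk⟩ : ∃ k : ℕ → P.K, ∀ n, k n =
        (⟨P.exp (((n : ℝ))⁻¹ • (Y : 𝔤)), hmem Y _⟩ * ⟨P.exp (((n : ℝ))⁻¹ • (Z : 𝔤)), hmem Z _⟩) ^ n :=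
      ⟨_, fun n => rfl⟩
    have hkG : ∀ᶠ n : ℕ in atTop, P.exp ((n : ℝ) • q n) = (k n : G) := by
      filter_upwards [hq1] with n hn
      rw [hk, P.toLieData.exp_nsmul, hn]
      rfl
    have hkt : Tendsto k atTop (𝓝 ⟨P.exp (((Y + Z : P.𝔨) : 𝔤)), ParData.exp_mem (Y + Z)⟩) := by
      rw [tendsto_subtype_rng]
      exact h1.congr' hkG
    have h2 : Tendsto (fun n => ρ (k n)) atTop (𝓝 (NormedSpace.exp (A (Y + Z)))) := by
      rw [← hA1]
      exact (hρc.tendsto _).comp hkt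
    have h3 : Tendsto (fun n => ρ (k n)) atTop (𝓝 (NormedSpace.exp (A Y + A Z))) := by
      have h4 := tendsto_lie_product hone (A Y) (A Z)
      refine h4.congr ?_
      intro n
      rw [hk, hρp, hρm, hA, hA]
    exact tendsto_nhds_unique h2 h3
  have hadd : ∀ Y Z : P.𝔨, A (Y + Z) = A Y + A Z := by
    intro Y Z
    apply exp_inj_of_all
    intro t
    rw [← hsmul, smul_add, hexpadd, hsmul, hsmul, smul_add]
  refine ⟨{ toFun := A, map_add' := hadd, map_smul' := hsmul }, fun Z w => ?_⟩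
  rw [← hρ, hA1]
  rfl

end lie

end Pool.Agent.Helper44.SG
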